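import Pool.Agent.Y6.G.Main

/-!
Finite-time blow-up for the three-dimensional periodic Euler equations with an additional linear
term `K u = A(D) u₊ + B(D) u₋` for almost every pair `(A, B)` of the space of all pairs of odd
polynomials of degree `≤ d` (`d ≥ 2201`) such that `A` vanishes on the coordinate axes and `B` on
the three curves `k (j + 1) = k j ^ 61`, `k (j + 2) = 0` (`A(D)`, `B(D)`: the real
constant-coefficient differential operators of odd order with the symbols `i A(k)`, `i B(k)`;
`u₊, u₋`: the parts of positive and negative helicity), from arbitrarily small `C^∞` data. The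
nonlinearity is exactly that of the Euler equations; `K` is skew-adjoint, commutes with all
translations, all derivatives and the curl, and drops out of every `H^s` energy identity.
-/

open Set MeasureTheory

namespace Pool.Agent.Results.MP_b0497c_an.AlmostEveryDispersion

open Pool.Agent.Y6.G

theorem result : ∀ d : ℕ, 2201 ≤ d → ∃ (N : ℕ) (A B : Fin N → MvPolynomial (Fin 3) ℝ),
    Bas d N A B ∧
    ∀ᵐ c : Fin N → ℝ, Blow (∑ l, MvPolynomial.C (c l) * A l) (∑ l, MvPolynomial.C (c l) * B l) :=
  t_MAINR

end Pool.Agent.Results.MP_b0497c_an.AlmostEveryDispersion
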