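import Pool.Agent.Y5.V.MainY

/-!
Finite-time blow-up for the three-dimensional periodic Euler equations with a damping
`-φ(-Δ)u`, `φ ≥ 0` a function of the Laplacian. The nonlinearity is exactly that of the Euler
(Navier-Stokes) equations, the phase space consists of all real smooth fields. Conditions on the
damping: for the eigenvalues `m² N` (that is, for the frequencies in `m ℤ³` if `m` is a power of
`2`) it is small (or zero) on a lacunary set and large otherwise; it is arbitrary (for instance zero)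
for all eigenvalues which are not divisible by `m²`. Instances: the Navier-Stokes equations with the
viscosity switched off on the lacunary set (`m = 1`); the Euler equations with a damping of an
arbitrarily small proportion of the modes (`m` large).
-/

open Set
open scoped ComplexConjugate

set_option autoImplicit false

namespace Pool.Agent.Results.MP_b0497c_an.LacunaryDamping

/-- Fourier coefficients of a vector field on the torus `ℝ³ / ℤ³`: `u(x) = ∑ V k e^{2 π i k·x}` -/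
abbrev Coef : Type := (Fin 3 → ℤ) → Fin 3 → ℂ

/-- `|k|²`; the eigenvalue of `-Δ` on the mode `e^{2 π i k·x}` is `4 π² |k|²` -/
def nsq (k : Fin 3 → ℤ) : ℤ := ∑ j, k j ^ 2

/-- the Fourier coefficients of `(u · ∇) u` -/
noncomputable def adv (V : Coef) (k : Fin 3 → ℤ) (j : Fin 3) : ℂ :=
  ∑' p : Fin 3 → ℤ, 2 * Real.pi * Complex.I * (∑ i, V p i * ((k - p) i : ℂ)) * V (k - p) j

/-- the Leray projection (onto divergence free fields): `w - (k·w) k / |k|²` -/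
noncomputable def leray (k : Fin 3 → ℤ) (w : Fin 3 → ℂ) (j : Fin 3) : ℂ :=
  w j - (∑ i, (k i : ℂ) * w i) / ((nsq k : ℝ) : ℂ) * (k j : ℂ)

/-- Real divergence free fields of mean zero, `C^∞` on the torus `ℝ³ / ℤ³`. -/
structure IsField (V : Coef) : Prop where
  mean : V 0 = 0
  real : ∀ k j, V (-k) j = conj (V k j)
  div : ∀ k, ∑ j, (k j : ℂ) * V k j = 0
  smooth : ∀ q : ℕ, ∃ M, ∀ k j, √(nsq k : ℝ) ^ q * ‖V k j‖ ≤ M

/-- Smooth solutions on `[0, T)` of `∂ₜ u + (u · ∇) u + ∇ p = - φ(-Δ / 4π²) u`, `div u = 0`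
(all derivatives are bounded on `[0, T']` for `T' < T`). -/
structure IsSol (φ : ℤ → ℝ) (T : ℝ) (V : ℝ → Coef) : Prop where
  field : ∀ t ∈ Ico 0 T, IsField (V t)
  reg : ∀ q : ℕ, ∀ T' < T, ∃ M, ∀ t ∈ Icc 0 T', ∀ k j, √(nsq k : ℝ) ^ q * ‖V t k j‖ ≤ M
  eqn : ∀ k, k ≠ 0 → ∀ j, ∀ t ∈ Ico 0 T, HasDerivWithinAt (fun s => V s k j)
    (-((φ (nsq k) : ℝ) : ℂ) * V t k j - leray k (adv (V t) k) j) (Ico 0 T) t

/-- `∫ |u|²` -/
noncomputable def energy (V : Coef) : ℝ := ∑' k, ∑ j, ‖V k j‖ ^ 2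

/-- `∑ |k|⁶ |V k|²`, the square of the `H³` norm -/
noncomputable def hThree (V : Coef) : ℝ := ∑' k, √(nsq k : ℝ) ^ 6 * ∑ j, ‖V k j‖ ^ 2

/-- the lacunary set `{11, 40, 88, 208} · 64^j`, `j ≥ 0` -/
def Lacunary (N : ℤ) : Prop :=
  ∃ j : ℕ, N = 11 * 64 ^ j ∨ N = 40 * 64 ^ j ∨ N = 88 * 64 ^ j ∨ N = 208 * 64 ^ j

/-- the initial field, a trigonometric polynomial with `|k|² = 11`: `û(k) = - i a(k) / √528`,
`a(k)_j = 3 k_j` if `|k_j| = 1`, `a(k)_j = - 2/3 k_j` if `|k_j| = 3`, that is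
`u_i = (2/√33) (3 sin(2πx_i) (cos(2πx_j) cos(6πx_k) + cos(6πx_j) cos(2πx_k))
- 2 sin(6πx_i) cos(2πx_j) cos(2πx_k))` -/
noncomputable def datum : Coef := fun k j =>
  if nsq k = 11 then
    -Complex.I * ((if |k j| = 1 then 3 * (k j : ℝ) else -(2 / 3) * (k j : ℝ)) / √528 : ℝ)
  else 0

theorem isField_iff {V : Coef} : IsField V ↔ Pool.Agent.Y6.M.IsField V :=
  ⟨fun h => ⟨h.mean, h.real, h.div, h.smooth⟩, fun h => ⟨h.zero, h.real, h.div, h.smooth⟩⟩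

theorem isSol_iff {φ : ℤ → ℝ} {T : ℝ} {V : ℝ → Coef} :
    IsSol φ T V ↔ Pool.Agent.Y5.V.Sol (fun k => φ (nsq k)) T V :=
  ⟨fun h => ⟨fun t ht => isField_iff.1 (h.field t ht), h.reg, h.eqn⟩,
    fun h => ⟨fun t ht => isField_iff.2 (h.field t ht), h.reg, h.eqn⟩⟩

/-- Blow-up with damping. The initial field is `u(0, x) = (a / m) datum(m x)`. -/
theorem result : ∀ s σ : ℝ, 2 / 3 < s → σ < 1 / 3 →
    ∃ ν₀ ε₀ T₀ : ℝ, 0 < ν₀ ∧ 0 < ε₀ ∧ 0 < T₀ ∧ ∀ (m : ℕ) (a : ℝ) (φ : ℤ → ℝ), 0 < m → 0 < a →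
      (∀ N, 0 ≤ φ N) →
      -- the damping on the lacunary set, for instance `0`
      (∀ N, Lacunary N → φ (m ^ 2 * N) ≤ ε₀ * a * (N : ℝ) ^ σ) →
      -- the damping of the other eigenvalues `m² N`, for instance `ν₀ a (-Δ)^s` or more;
      -- the eigenvalues which are not divisible by `m²` are arbitrary
      (∀ N, 0 < N → ¬ Lacunary N → ν₀ * a * (N : ℝ) ^ s ≤ φ (m ^ 2 * N)) →
      (∃ (C : ℝ) (p : ℕ), ∀ N, 0 ≤ N → φ N ≤ C * (1 + (N : ℝ)) ^ p) →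
      ∃ (T : ℝ) (V : ℝ → Coef), 0 < T ∧ T ≤ T₀ / a ∧ IsSol φ T V ∧
        (∀ k j, V 0 (fun i => m * k i) j = ((a / m : ℝ) : ℂ) * datum k j) ∧
        (∀ k, (∃ i, ¬ (m : ℤ) ∣ k i) → V 0 k = 0) ∧
        -- uniqueness, and `T` is the maximal time of existence
        (∀ (T' : ℝ) (W : ℝ → Coef), 0 < T' → IsSol φ T' W → W 0 = V 0 →
          T' ≤ T ∧ ∀ t ∈ Ico 0 T', W t = V t) ∧
        -- the energy identity
        (∀ t ∈ Ico 0 T, HasDerivWithinAt (fun r => energy (V r))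
          (-(2 * ∑' k, φ (nsq k) * ∑ j, ‖V t k j‖ ^ 2)) (Ico 0 T) t) ∧
        -- blow-up
        ∀ M : ℝ, ∃ t ∈ Ico 0 T, M < hThree (V t) := by
  intro s σ hs hσ
  obtain ⟨ν₀, ε₀, T₀, hν, hε, hT, h⟩ := Pool.Agent.Y5.V.t_MAINY s σ hs hσ
  refine ⟨ν₀, ε₀, T₀, hν, hε, hT, fun m a φ hm ha h1 h2 h3 h4 => ?_⟩
  obtain ⟨T, V, hT1, hT2, hV, hV0, hu, he, hb⟩ := h m a φ hm ha h1 h2 h3 h4
  refine ⟨T, V, hT1, hT2, isSol_iff.2 hV, ?_, ?_,
    fun T' W hT' hW hW0 => hu T' W hT' (isSol_iff.1 hW) hW0, he, hb⟩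
  · intro k j
    rw [hV0]
    show Pool.Agent.Y5.V.ddl m (a / m) (Pool.Agent.Y5.V.mu m k) j = _
    unfold Pool.Agent.Y5.V.ddl
    rw [if_pos (Pool.Agent.Y5.V.mul_mu m k), Pool.Agent.Y5.V.div_mu hm]
    rfl
  · rintro k ⟨i, hi⟩
    rw [hV0]
    funext j
    exact if_neg fun h => hi (h i)

end Pool.Agent.Results.MP_b0497c_an.LacunaryDamping
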