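import Pool.Agent.Y6.H.Main4

/-!
Finite-time blow-up for the three-dimensional periodic Euler equations with an additional linear
term `K u`, `K` a skew-adjoint Fourier multiplier which is diagonal in helicity (it acts as a
number `i w(k, s)` on the part of frequency `k` and helicity `s`): ANY such multiplier which
vanishes at the special modes (at most `4 log log N` of them have length `≤ N`), perturbed at the
other modes by
`δ |k|^20` times independent random variables with densities `≤ C` (for instance uniformly
distributed ones), gives blow-up with probability 1, from arbitrarily small `C^∞` data. The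
perturbation may be restricted to the frequencies in `L Z³`. The nonlinearity is exactly that of
the Euler equations; `K` commutes with all translations, all derivatives and the curl, and drops
out of every `H^s` energy identity.
-/

open Set MeasureTheory

namespace Pool.Agent.Results.MP_b0497c_an.RandomPerturbation

open Pool.Agent.Y6.H
open Pool.Agent.Y6.M (Md br)
open Pool.Agent.Y6.F (ln)

theorem result :
    Bd (1 / 2) (fun _ => unif) ∧
    (∀ N : ℝ, 3 ≤ N → {i : Md | Sp i ∧ ln i ≤ N}.Finite ∧
      ({i : Md | Sp i ∧ ln i ≤ N}.ncard : ℝ) ≤ 4 * Real.log (Real.log N)) ∧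
    ∀ (C : NNReal) (ν : Md → Measure ℝ), Bd C ν →
      ∀ (L : ℕ) (hL : L ≠ 0) (ω₀ : Md → ℝ), (∀ i, ω₀ (br i) = -ω₀ i) →
      (∀ j, Sp j → ω₀ (dil L hL j) = 0) → ∀ δ : ℝ, 0 < δ →
      ∀ᵐ X : Md → ℝ ∂(Measure.infinitePi ν), Blow (ωL L hL δ ω₀ X) :=
  ⟨bd_unif, t_CNT, t_MAING⟩

end Pool.Agent.Results.MP_b0497c_an.RandomPerturbation
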