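import Pool.Agent.Y302.Tri.Trans

/-!
# Finite time blow-up for the Euler equations on `𝕋³` with a very sparse set of triads switched off
-/

open MeasureTheory Set
open scoped ContDiff

namespace Pool.Agent.Results.MP_b0497c_an.TriadRemoval

/-- The space `ℝ³`. -/
abbrev V := Fin 3 → ℝ

/-- Frequencies. -/
abbrev K := Fin 3 → ℤ

/-- `f` is `2π`-periodic in each of the three coordinates. -/
def Periodic3 {F : Type} (f : V → F) : Prop :=
  ∀ (i : Fin 3) (x : V), f (x + Pi.single i (2 * Real.pi)) = f x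

/-- The partial derivative `∂ⱼ vᵢ (x)` of the vector field `v`. -/
noncomputable def D (v : V → V) (x : V) (j i : Fin 3) : ℝ := fderiv ℝ v x (Pi.single j 1) i

/-- The torus `𝕋³ = [-π, π]³`. -/
def torus : Set V := Icc (fun _ => -Real.pi) (fun _ => Real.pi)

/-- `k · x`. -/
noncomputable def dot (k : K) (x : V) : ℝ := ∑ i, (k i : ℝ) * x i

/-- The Fourier coefficient `(2π)⁻³ ∫ g(x) exp(-i k·x) dx` of `g`. -/
noncomputable def coeff (g : V → ℝ) (k : K) : ℂ :=
  (∫ x in torus, (g x : ℂ) * Complex.exp (-Complex.I * (dot k x : ℂ))) / (2 * Real.pi) ^ 3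

/-- Regular fields: `u` and `p` are continuously differentiable in `(t, x)` for `t ∈ I` and
`2π`-periodic in `x`, `div u = 0`, and the norm of `u` in `H³`, i.e. the square root of
`∑ₖ (1 + |k|²)³ |û(k)|²`, is bounded on `{t ∈ I : t ≤ s}` for each `s ∈ I`. -/
structure IsRegular (I : Set ℝ) (u : ℝ → V → V) (p : ℝ → V → ℝ) : Prop where
  contDiffOn_u : ContDiffOn ℝ 1 (fun z : ℝ × V => u z.1 z.2) (I ×ˢ univ)
  contDiffOn_p : ContDiffOn ℝ 1 (fun z : ℝ × V => p z.1 z.2) (I ×ˢ univ)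
  periodic_u : ∀ t ∈ I, Periodic3 (u t)
  periodic_p : ∀ t ∈ I, Periodic3 (p t)
  div_free : ∀ t ∈ I, ∀ x, ∑ i, D (u t) x i i = 0
  sobolev : ∀ s ∈ I, ∃ B : ℝ, ∀ t ∈ I, t ≤ s → ∀ F : Finset K,
    ∑ k ∈ F, (1 + ∑ j, (k j : ℝ) ^ 2) ^ 3 * ∑ i, ‖coeff (fun x => u t x i) k‖ ^ 2 ≤ B

/-- A weight on the triads: a bounded function `η(p, q)` which depends only on the triad
`{p, q, -(p + q)}`, and is the same for the triad `{-p, -q, p + q}`. -/
structure IsWeight (η : K → K → ℝ) : Prop where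
  symm : ∀ p q, η q p = η p q
  third : ∀ p q, η p (-(p + q)) = η p q
  neg : ∀ p q, η (-p) (-q) = η p q
  bdd : ∃ C, ∀ p q, |η p q| ≤ C

/-- `(u, p)` is a regular solution, for the times in `I`, of the incompressible Euler equations
with the interaction in each triad `{p, q, -(p + q)}` multiplied by `η(p, q)`: for all frequencies
`k` the Fourier coefficient at `k` of `∂ₜ uᵢ + ∂ᵢ p` is
`-∑ η(p, q) (i û(p) · q) ûᵢ(q)`, the sum being over all `p, q` with `p + q = k`. -/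
structure IsSolution (η : K → K → ℝ) (I : Set ℝ) (u : ℝ → V → V) (p : ℝ → V → ℝ) : Prop where
  regular : IsRegular I u p
  momentum : ∀ t ∈ I, ∀ i k,
    coeff (fun x => derivWithin (fun s => u s x i) I t + fderiv ℝ (p t) x (Pi.single i 1)) k
      = -∑' q, (η (k - q) q : ℂ)
        * (Complex.I * ∑ j, coeff (fun x => u t x j) (k - q) * (q j : ℂ))
        * coeff (fun x => u t x i) q

/-- `S` is a set of triads: with `(p, q)` it contains all `(p', q')` with
`{p', q', -(p' + q')} = ±{p, q, -(p + q)}`. -/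
def IsTriadSet (S : Set (K × K)) : Prop :=
  ∀ p q, (p, q) ∈ S → (q, p) ∈ S ∧ (p, -(p + q)) ∈ S ∧ (-p, -q) ∈ S

/-- The vorticity `curl v`. -/
noncomputable def curl (v : V → V) (x : V) : V :=
  ![D v x 1 2 - D v x 2 1, D v x 2 0 - D v x 0 2, D v x 0 1 - D v x 1 0]

/-- The trigonometric polynomial with the `i`-th component, for `{i, j, k} = {1, 2, 3}`,
`3 sin(M xᵢ) (cos(M xⱼ) cos(3M xₖ) + cos(3M xⱼ) cos(M xₖ)) - 2 sin(3M xᵢ) cos(M xⱼ) cos(M xₖ)`. -/
noncomputable def datum (M : ℕ) (x : V) : V := fun i =>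
  3 * Real.sin (M * x i) * (Real.cos (M * x (i + 1)) * Real.cos (3 * M * x (i + 2))
      + Real.cos (3 * M * x (i + 1)) * Real.cos (M * x (i + 2)))
    - 2 * Real.sin (3 * M * x i) * Real.cos (M * x (i + 1)) * Real.cos (M * x (i + 2))

open Pool.Agent.Y302 Pool.Agent.H708R2

lemma reg_iff (I : Set ℝ) (u : ℝ → V → V) (p : ℝ → V → ℝ) :
    IsRegular I u p ↔ Tri.IsReg I u p :=
  ⟨fun h => ⟨⟨h.1, h.2, h.3, h.4, h.5⟩, h.6⟩,
    fun h => ⟨h.base.1, h.base.2, h.base.3, h.base.4, h.base.5, h.2⟩⟩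

lemma sol_iff (η : K → K → ℝ) (T : ℝ) (u : ℝ → V → V) (p : ℝ → V → ℝ) :
    IsSolution η (Ico 0 T) u p ↔ Tri.IsSolutionW η (Ico 0 T) u p := by
  rw [← Tri.sol_iff, ← reg_iff]
  exact ⟨fun h => ⟨h.1, h.2⟩, fun h => ⟨h.1, h.2⟩⟩

lemma weight_iff (η : K → K → ℝ) : IsWeight η ↔ Tri.IsWeight η :=
  ⟨fun h => ⟨h.1, h.2, h.3, h.4⟩, fun h => ⟨h.1, h.2, h.3, h.4⟩⟩

/-- Three statements. First, for the weight `η = 1` the solutions are precisely the regular
classical solutions of the Euler equations. Second, whatever the weight `η` is, each solution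
conserves its energy `∫ |u|²` and its helicity `∫ u · curl u`. Third, for every integer `M ≥ 1`
there are a set `T₀` of triads, with at most `172800 (log N)²` elements `(p, q)` with
`|pᵢ|, |qᵢ| ≤ N`, and a set `T₁` of triads, with at most `17280 log N` such elements, `T₀` and `T₁`
disjoint and all `(p, q)` in them satisfying `max |pᵢ| ≥ M`, and a field `u` on a finite time
interval `[0, T)`, smooth in `x`, with `∫ |curl u| dx ≥ 39 / (T - t)` and the explicit
trigonometric polynomial `datum M` as initial value, such that for every weight `η` which is `0` on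
`T₀` and `1` on `T₁`, and arbitrary elsewhere, `u` is a solution of the Euler equations with the
weight `η` and it is unique and maximal among all solutions of these. In particular this holds for
the weight which is `0` on `T₀` and `1` off `T₀`. -/
theorem result (M : ℕ) (hM : 0 < M) :
    (∀ (T : ℝ) (u : ℝ → V → V) (p : ℝ → V → ℝ), IsSolution (fun _ _ => 1) (Ico 0 T) u p ↔
      IsRegular (Ico 0 T) u p ∧ ∀ t ∈ Ico 0 T, ∀ x i, derivWithin (fun s => u s x i) (Ico 0 T) t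
        + ∑ j, u t x j * D (u t) x j i + fderiv ℝ (p t) x (Pi.single i 1) = 0) ∧
    (∀ η, IsWeight η → ∀ (T : ℝ) (u : ℝ → V → V) (p : ℝ → V → ℝ), IsSolution η (Ico 0 T) u p →
      ∀ t ∈ Ico 0 T, ∫ x in torus, ∑ i, u t x i ^ 2 = ∫ x in torus, ∑ i, u 0 x i ^ 2 ∧
        ∫ x in torus, ∑ i, u t x i * curl (u t) x i
          = ∫ x in torus, ∑ i, u 0 x i * curl (u 0) x i) ∧
    ∃ T₀ T₁ : Set (K × K), IsTriadSet T₀ ∧ IsTriadSet T₁ ∧ Disjoint T₀ T₁ ∧
      (∀ x ∈ T₀ ∪ T₁, ∃ i, (M : ℤ) ≤ |x.1 i|) ∧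
      (∀ N : ℕ, 2 ≤ N → ({x ∈ T₀ | ∀ i, |x.1 i| ≤ N ∧ |x.2 i| ≤ N}.ncard : ℝ)
        ≤ 172800 * Real.log N ^ 2) ∧
      (∀ N : ℕ, 2 ≤ N → ({x ∈ T₁ | ∀ i, |x.1 i| ≤ N ∧ |x.2 i| ≤ N}.ncard : ℝ)
        ≤ 17280 * Real.log N) ∧
      ∃ (T : ℝ) (u : ℝ → V → V) (p : ℝ → V → ℝ),
        0 < T ∧ T ≤ 56 / M ∧ u 0 = datum M ∧
        (∀ t ∈ Ico 0 T, ContDiff ℝ ∞ (u t)) ∧
        (∀ t ∈ Ico 0 T, 39 / (T - t) ≤ ∫ x in torus, Real.sqrt (∑ i, curl (u t) x i ^ 2)) ∧
        ∀ η, IsWeight η → (∀ x ∈ T₀, η x.1 x.2 = 0) → (∀ x ∈ T₁, η x.1 x.2 = 1) →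
          IsSolution η (Ico 0 T) u p ∧
          ∀ (T' : ℝ) (w : ℝ → V → V) (q : ℝ → V → ℝ),
            IsSolution η (Ico 0 T') w q → w 0 = datum M →
              T' ≤ T ∧ ∀ t ∈ Ico 0 T', w t = u t := by
  refine ⟨fun T u p => ?_, fun η hη T u p h t ht => ?_, ?_⟩
  · constructor
    · intro h
      exact ⟨h.1, (Tri.mom_one_iff ((reg_iff _ _ _).1 h.1).base).1 h.2⟩
    · rintro ⟨h1, h2⟩
      exact ⟨h1, (Tri.mom_one_iff ((reg_iff _ _ _).1 h1).base).2 h2⟩
  · have h1 := (sol_iff η T u p).1 h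
    have h2 := (weight_iff η).1 hη
    have h0 : (0 : ℝ) ∈ Ico 0 T := ⟨le_rfl, ht.1.trans_lt ht.2⟩
    have ct : ContDiff ℝ 1 (u t) := EulerSign.contDiff_slice h1.base.contDiffOn_u ht
    have c0 : ContDiff ℝ 1 (u 0) := EulerSign.contDiff_slice h1.base.contDiffOn_u h0
    have pt := h1.base.periodic_u t ht
    have p0 := h1.base.periodic_u 0 h0
    constructor
    · have e1 := Tri.energy_eq pt
      have e2 := Tri.energy_eq p0
      have e3 := Tri.energy_const h2 h1 ht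
      exact e1.trans (e3.trans e2.symm)
    · have e1 := Tri.hel_eq ct pt
      have e2 := Tri.hel_eq c0 p0
      have e3 := Tri.hel_const h2 h1 ht
      exact e1.trans (e3.trans e2.symm)
  · obtain ⟨T₀, T₁, h1, h2, h3, h4, h5, h6, T, u, p, h7, h8, h9, h10, h11, h12⟩ :=
      Tri.main_tri M hM
    refine ⟨T₀, T₁, h1, h2, h3, h4, h5, h6, T, u, p, h7, h8, h9, h10, fun t ht => ?_,
      fun η hη hη0 hη1 => ?_⟩
    · have h := h11 t ht
      have e : ∀ y : V, EulerTypeI.nrm y = Real.sqrt (∑ i, y i ^ 2) := by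
        intro y
        unfold EulerTypeI.nrm
        rw [dotProduct]
        congr 1
        exact Finset.sum_congr rfl fun i _ => by ring
      simp only [e] at h
      exact h
    · obtain ⟨a1, a2⟩ := h12 η ((weight_iff η).1 hη) hη0 hη1
      exact ⟨(sol_iff η T u p).2 a1, fun T' w q hw hw0 => a2 T' w q ((sol_iff η T' w q).1 hw) hw0⟩

end Pool.Agent.Results.MP_b0497c_an.TriadRemoval
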